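import Mathlib
set_option autoImplicit false
open Finset
open scoped Classical

namespace DM

/-- `D` dominates the hypergraph with vertex type `V` and edge family `E` -/
def Dominates {V : Type} (E : Finset (Finset V)) (D : Finset V) : Prop :=
  ∀ v, v ∉ D → ∃ u ∈ D, ∃ e ∈ E, u ∈ e ∧ v ∈ e

end DM
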