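import Mathlib
import Pool.Agent.Helper470.DM.Defs
set_option autoImplicit false

open Finset
open scoped Classical

namespace DM


theorem ec_or {V : Type} (G : SimpleGraph V) : ∀ {u v : V} (w : G.Walk u v) (x y : V)
    (hx : x ∈ w.support) (hy : y ∈ w.support),
    x ∈ (w.takeUntil y hy).support ∨ y ∈ (w.takeUntil x hx).support := by
  intro u v w
  induction w with
  | nil =>
    intro x y hx hy
    simp only [SimpleGraph.Walk.support_nil, List.mem_singleton] at hx hy
    subst hx
    left
    exact SimpleGraph.Walk.start_mem_support _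
  | @cons u v' v h p ih =>
    intro x y hx hy
    by_cases hux : u = x
    · subst hux
      left
      exact SimpleGraph.Walk.start_mem_support _
    · by_cases huy : u = y
      · subst huy
        right
        exact SimpleGraph.Walk.start_mem_support _
      · have hx' : x ∈ p.support := by
          rw [SimpleGraph.Walk.support_cons, List.mem_cons] at hx
          rcases hx with h0 | h0
          · exact absurd h0.symm hux
          · exact h0
        have hy' : y ∈ p.support := by
          rw [SimpleGraph.Walk.support_cons, List.mem_cons] at hy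
          rcases hy with h0 | h0
          · exact absurd h0.symm huy
          · exact h0
        rw [SimpleGraph.Walk.takeUntil_cons hx' hux, SimpleGraph.Walk.takeUntil_cons hy' huy,
          SimpleGraph.Walk.support_cons, SimpleGraph.Walk.support_cons, List.mem_cons,
          List.mem_cons]
        rcases ih x y hx' hy' with h1 | h1
        · left; right; exact h1
        · right; right; exact h1

theorem ec_core {V : Type} (G : SimpleGraph V) {v u : V} (w : G.Walk v u) (hw : w.IsPath) (x y : V)
    (hy : y ∈ w.support) (hxB : x ∈ (w.takeUntil y hy).support) (hvx : G.Adj v x)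
    (hvy : G.Adj v y) (hxy : x ≠ y) (hex : s(x, v) ∉ w.edges) (hey : s(y, v) ∉ w.edges) :
    ∃ (a : V) (c : G.Walk a a), c.IsCycle ∧ Even c.length := by
  obtain ⟨B, hBdef⟩ : ∃ B : G.Walk v y, B = w.takeUntil y hy := ⟨_, rfl⟩
  rw [← hBdef] at hxB
  have hB : B.IsPath := by rw [hBdef]; exact hw.takeUntil hy
  have hBe : ∀ e ∈ B.edges, e ∈ w.edges := by
    intro e he
    rw [hBdef] at he
    exact w.edges_takeUntil_subset_edges hy he
  obtain ⟨C, hCdef⟩ : ∃ C : G.Walk v x, C = B.takeUntil x hxB := ⟨_, rfl⟩
  obtain ⟨q, hqdef⟩ : ∃ q : G.Walk x y, q = B.dropUntil x hxB := ⟨_, rfl⟩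
  have hC : C.IsPath := by rw [hCdef]; exact hB.takeUntil hxB
  have hq : q.IsPath := by rw [hqdef]; exact hB.dropUntil hxB
  have hCe : ∀ e ∈ C.edges, e ∈ w.edges := by
    intro e he
    rw [hCdef] at he
    exact hBe e (B.edges_takeUntil_subset_edges hxB he)
  have hCq : C.append q = B := by rw [hCdef, hqdef]; exact B.take_spec hxB
  have hlen : C.length + q.length = B.length := by
    rw [← hCq, SimpleGraph.Walk.length_append]
  have hvq : v ∉ q.support := by
    intro hv
    have h1 : B.support.Nodup := hB.support_nodup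
    rw [← hCq, SimpleGraph.Walk.support_append] at h1
    have h2 : v ∈ q.support.tail := by
      rw [SimpleGraph.Walk.support_eq_cons] at hv
      rcases List.mem_cons.1 hv with h3 | h3
      · exact absurd h3 hvx.ne
      · exact h3
    exact (List.disjoint_of_nodup_append h1) (SimpleGraph.Walk.start_mem_support C) h2
  have c1 : (SimpleGraph.Walk.cons hvx.symm C).IsCycle :=
    (SimpleGraph.Walk.cons_isCycle_iff C hvx.symm).2 ⟨hC, fun h => hex (hCe _ h)⟩
  have c2 : (SimpleGraph.Walk.cons hvy.symm B).IsCycle :=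
    (SimpleGraph.Walk.cons_isCycle_iff B hvy.symm).2 ⟨hB, fun h => hey (hBe _ h)⟩
  have c3 : (SimpleGraph.Walk.cons hvy.symm (SimpleGraph.Walk.cons hvx q)).IsCycle := by
    rw [SimpleGraph.Walk.cons_isCycle_iff]
    refine ⟨(SimpleGraph.Walk.cons_isPath_iff hvx q).2 ⟨hq, hvq⟩, ?_⟩
    rw [SimpleGraph.Walk.edges_cons, List.mem_cons]
    rintro (h1 | h1)
    · rw [Sym2.eq_iff] at h1
      rcases h1 with ⟨h2, h3⟩ | ⟨h2, h3⟩
      · exact hvx.ne h3
      · exact hxy h2.symm
    · exact hvq (q.snd_mem_support_of_mem_edges h1)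
  by_cases h1 : Even (C.length + 1)
  · exact ⟨x, _, c1, by rw [SimpleGraph.Walk.length_cons]; exact h1⟩
  · by_cases h2 : Even (B.length + 1)
    · exact ⟨y, _, c2, by rw [SimpleGraph.Walk.length_cons]; exact h2⟩
    · refine ⟨y, _, c3, ?_⟩
      rw [SimpleGraph.Walk.length_cons, SimpleGraph.Walk.length_cons]
      rw [Nat.even_iff] at h1 h2 ⊢
      omega

-- TARGET (prove this)
theorem evencycle {V : Type} [Fintype V] [Nonempty V] (G : SimpleGraph V)
    (h : ∀ v, 3 ≤ (univ.filter (fun w => G.Adj v w)).card) :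
    ∃ (v : V) (c : G.Walk v v), c.IsCycle ∧ Even c.length := by
  obtain ⟨v, u, w, hw, hmax⟩ := SimpleGraph.Walk.exists_isPath_forall_isPath_length_le_length G
  have hnb : ∀ x, G.Adj v x → x ∈ w.support := by
    intro x hx
    by_contra hxs
    have h1 : (SimpleGraph.Walk.cons hx.symm w).IsPath :=
      (SimpleGraph.Walk.cons_isPath_iff hx.symm w).2 ⟨hw, hxs⟩
    have h2 := hmax _ _ _ h1
    rw [SimpleGraph.Walk.length_cons] at h2
    omega
  have hp1 : ∃ p1 : V, ∀ x, G.Adj v x → x ≠ p1 → s(x, v) ∉ w.edges := by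
    cases w with
    | nil =>
      exact ⟨v, fun x _ _ => by simp⟩
    | @cons _ p1 _ h p =>
      refine ⟨p1, fun x hx hxp he => ?_⟩
      rw [SimpleGraph.Walk.edges_cons, List.mem_cons] at he
      rcases he with h1 | h1
      · rw [Sym2.eq_iff] at h1
        rcases h1 with ⟨h2, h3⟩ | ⟨h2, h3⟩
        · exact hx.ne h2.symm
        · exact hxp h2
      · have h2 := ((SimpleGraph.Walk.cons_isPath_iff h p).1 hw).2
        exact h2 (p.snd_mem_support_of_mem_edges h1)
  obtain ⟨p1, hp1⟩ := hp1
  have hcard : 1 < ((univ.filter (fun w => G.Adj v w)).erase p1).card := by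
    have h1 := h v
    have h2 := Finset.pred_card_le_card_erase (s := univ.filter (fun w => G.Adj v w)) (a := p1)
    omega
  obtain ⟨x, hx, y, hy, hxy⟩ := Finset.one_lt_card.1 hcard
  rw [Finset.mem_erase, Finset.mem_filter] at hx hy
  have hvx := hx.2.2
  have hvy := hy.2.2
  have hex := hp1 x hvx hx.1
  have hey := hp1 y hvy hy.1
  rcases ec_or G w x y (hnb x hvx) (hnb y hvy) with h1 | h1
  · exact ec_core G w hw x y (hnb y hvy) h1 hvx hvy hxy hex hey
  · exact ec_core G w hw y x (hnb x hvx) h1 hvy hvx hxy.symm hey hex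


end DM
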