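import Mathlib
import Pool.Agent.Helper470.DM.Evencycle
set_option autoImplicit false

open Finset
open scoped Classical

namespace DM




theorem cm3_three {V I : Type} (J : Finset I) (F : I → Finset V) (x : V) (e f g : I)
    (he : e ∈ J) (hf : f ∈ J) (hg : g ∈ J) (hef : e ≠ f) (heg : e ≠ g) (hfg : f ≠ g)
    (xe : x ∈ F e) (xf : x ∈ F f) (xg : x ∈ F g) :
    3 ≤ (J.filter (fun i => x ∈ F i)).card := by
  have hsub : ({e, f, g} : Finset I) ⊆ J.filter (fun j => x ∈ F j) := by
    intro j hj
    simp only [mem_insert, mem_singleton] at hj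
    rw [mem_filter]
    rcases hj with rfl | rfl | rfl
    · exact ⟨he, xe⟩
    · exact ⟨hf, xf⟩
    · exact ⟨hg, xg⟩
  have h3c : ({e, f, g} : Finset I).card = 3 :=
    Finset.card_eq_three.mpr ⟨e, f, g, hef, heg, hfg, rfl⟩
  have := Finset.card_le_card hsub
  omega

theorem cm3_step {V I : Type} (S : Finset V) (J : Finset I) (F : I → Finset V)
    (h : ∀ i ∈ J, F i ⊆ S ∧ (F i).card = 3)
    (IH : ∀ (S' : Finset V) (J' : Finset I), J'.card < J.card →
      (∀ i ∈ J', F i ⊆ S' ∧ (F i).card = 3) →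
      ∃ T : Finset V, T ⊆ S' ∧ (∀ i ∈ J', ∃ t ∈ T, t ∈ F i) ∧ 4 * T.card ≤ S'.card + J'.card)
    (T0 S0 : Finset V) (J0 : Finset I) (hS0 : S0 ⊆ S) (hT0 : T0 ⊆ S0) (hJ0 : J0 ⊆ J)
    (hne : J0.Nonempty) (hit : ∀ i ∈ J0, ∃ t ∈ T0, t ∈ F i)
    (hdis : ∀ i ∈ J, i ∉ J0 → ∀ x ∈ S0, x ∉ F i)
    (hc : 4 * T0.card ≤ S0.card + J0.card) :
    ∃ T : Finset V, T ⊆ S ∧ (∀ i ∈ J, ∃ t ∈ T, t ∈ F i) ∧ 4 * T.card ≤ S.card + J.card := by
  have h3 : (J \ J0).card + J0.card = J.card := Finset.card_sdiff_add_card_eq_card hJ0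
  have h4 : 0 < J0.card := Finset.card_pos.mpr hne
  obtain ⟨T, hTS, hTh, hTc⟩ := IH (S \ S0) (J \ J0) (by omega) (by
    intro i hi
    rw [Finset.mem_sdiff] at hi
    refine ⟨?_, (h i hi.1).2⟩
    intro x hx
    rw [Finset.mem_sdiff]
    exact ⟨(h i hi.1).1 hx, fun hx0 => hdis i hi.1 hi.2 x hx0 hx⟩)
  refine ⟨T ∪ T0, ?_, ?_, ?_⟩
  · exact Finset.union_subset (hTS.trans Finset.sdiff_subset) (hT0.trans hS0)
  · intro i hi
    by_cases hi0 : i ∈ J0
    · obtain ⟨t, ht, htF⟩ := hit i hi0
      exact ⟨t, Finset.mem_union_right _ ht, htF⟩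
    · obtain ⟨t, ht, htF⟩ := hTh i (Finset.mem_sdiff.mpr ⟨hi, hi0⟩)
      exact ⟨t, Finset.mem_union_left _ ht, htF⟩
  · have h1 := Finset.card_union_le T T0
    have h2 : (S \ S0).card + S0.card = S.card := Finset.card_sdiff_add_card_eq_card hS0
    omega

theorem cm3_graph {V I : Type} (S : Finset V) (J : Finset I) (F : I → Finset V)
    (h : ∀ i ∈ J, F i ⊆ S ∧ (F i).card = 3)
    (IH : ∀ (S' : Finset V) (J' : Finset I), J'.card < J.card →
      (∀ i ∈ J', F i ⊆ S' ∧ (F i).card = 3) →
      ∃ T : Finset V, T ⊆ S' ∧ (∀ i ∈ J', ∃ t ∈ T, t ∈ F i) ∧ 4 * T.card ≤ S'.card + J'.card)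
    (hJ : J.Nonempty)
    (hdeg : ∀ x, (∃ i ∈ J, x ∈ F i) → (J.filter (fun i => x ∈ F i)).card = 2)
    (hlin : ∀ e ∈ J, ∀ f ∈ J, e ≠ f → ∀ x y, x ∈ F e → x ∈ F f → y ∈ F e → y ∈ F f → x = y) :
    ∃ T : Finset V, T ⊆ S ∧ (∀ i ∈ J, ∃ t ∈ T, t ∈ F i) ∧ 4 * T.card ≤ S.card + J.card := by
  obtain ⟨G, hG⟩ : ∃ G : SimpleGraph {i // i ∈ J}, ∀ e f : {i // i ∈ J},
      G.Adj e f ↔ e ≠ f ∧ ∃ x, x ∈ F e.1 ∧ x ∈ F f.1 := by
    refine ⟨SimpleGraph.fromRel (fun e f : {i // i ∈ J} => ∃ x, x ∈ F e.1 ∧ x ∈ F f.1), ?_⟩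
    intro e f
    rw [SimpleGraph.fromRel_adj]
    constructor
    · rintro ⟨hne, ⟨x, h1, h2⟩ | ⟨x, h1, h2⟩⟩
      · exact ⟨hne, x, h1, h2⟩
      · exact ⟨hne, x, h2, h1⟩
    · rintro ⟨hne, x, h1, h2⟩
      exact ⟨hne, Or.inl ⟨x, h1, h2⟩⟩
  obtain ⟨j0, hj0⟩ := hJ
  haveI : Nonempty {i // i ∈ J} := ⟨⟨j0, hj0⟩⟩
  have hG3 : ∀ v, 3 ≤ (univ.filter (fun w => G.Adj v w)).card := by
    intro v
    have hoth : ∀ x, x ∈ F v.1 → ∃ w : {i // i ∈ J}, w ≠ v ∧ x ∈ F w.1 := by
      intro x hx
      have h2 := hdeg x ⟨v.1, v.2, hx⟩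
      obtain ⟨w, hw, hwv⟩ := Finset.exists_mem_ne
        (by omega : 1 < (J.filter (fun i => x ∈ F i)).card) v.1
      rw [mem_filter] at hw
      exact ⟨⟨w, hw.1⟩, fun h => hwv (congrArg Subtype.val h), hw.2⟩
    choose! g hg1 hg2 using hoth
    have hle : (F v.1).card ≤ (univ.filter (fun w => G.Adj v w)).card := by
      apply Finset.card_le_card_of_injOn g
      · intro x hx
        have hx' : x ∈ F v.1 := by simpa using hx
        simp only [Finset.coe_filter, Finset.mem_univ, true_and]
        exact (hG _ _).mpr ⟨(hg1 x hx').symm, x, hx', hg2 x hx'⟩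
      · intro x hx y hy hxy
        have hx' : x ∈ F v.1 := by simpa using hx
        have hy' : y ∈ F v.1 := by simpa using hy
        have hgy := hg2 y hy'
        rw [← hxy] at hgy
        exact hlin v.1 v.2 (g x).1 (g x).2 (fun h => hg1 x hx' (Subtype.ext h.symm)) x y hx'
          (hg2 x hx') hy' hgy
    rw [(h v.1 v.2).2] at hle
    exact hle
  obtain ⟨v, c, hc, heven⟩ := evencycle G hG3
  obtain ⟨s, hs⟩ := heven
  have h3 : 3 ≤ c.length := hc.three_le_length
  have hadj : ∀ i, i < c.length → G.Adj (c.getVert i) (c.getVert (i+1)) :=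
    fun i hi => c.adj_getVert_succ hi
  have hxex : ∀ i, ∃ x, i < c.length →
      x ∈ F (c.getVert i).1 ∧ x ∈ F (c.getVert (i+1)).1 := by
    intro i
    by_cases hi : i < c.length
    · obtain ⟨_, x, h1, h2⟩ := (hG _ _).mp (hadj i hi)
      exact ⟨x, fun _ => ⟨h1, h2⟩⟩
    · obtain ⟨_, x, h1, h2⟩ := (hG _ _).mp (hadj 0 (by omega))
      exact ⟨x, fun h => absurd h hi⟩
  choose x hx using hxex
  have hinj : ∀ i j, i < c.length → j < c.length → c.getVert i = c.getVert j → i = j := by
    intro i j hi hj hij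
    exact hc.getVert_injOn' (by simp only [Set.mem_setOf_eq]; omega)
      (by simp only [Set.mem_setOf_eq]; omega) hij
  have hlen : c.getVert c.length = c.getVert 0 := by rw [c.getVert_length, c.getVert_zero]
  have htwo : ∀ i < c.length, ∀ f ∈ J, x i ∈ F f →
      f = (c.getVert i).1 ∨ f = (c.getVert (i+1)).1 := by
    intro i hi f hf hxf
    by_contra hcon
    push Not at hcon
    have hcard := hdeg (x i) ⟨f, hf, hxf⟩
    have h3' := cm3_three J F (x i) (c.getVert i).1 (c.getVert (i+1)).1 f (c.getVert i).2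
      (c.getVert (i+1)).2 hf (fun h => (hadj i hi).ne (Subtype.ext h)) (fun h => hcon.1 h.symm)
      (fun h => hcon.2 h.symm) (hx i hi).1 (hx i hi).2 hxf
    omega
  have hxinj : ∀ i < c.length, ∀ j < c.length, x i = x j → i = j := by
    intro i hi j hj hij
    have b1 : x j ∈ F (c.getVert i).1 := hij ▸ (hx i hi).1
    have b2 : x j ∈ F (c.getVert (i+1)).1 := hij ▸ (hx i hi).2
    have a1 := htwo j hj _ (c.getVert i).2 b1
    have a2 := htwo j hj _ (c.getVert (i+1)).2 b2
    have hne := (hadj i hi).ne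
    rcases a1 with a1 | a1
    · exact hinj i j hi hj (Subtype.ext a1)
    · rcases a2 with a2 | a2
      · exfalso
        have a1' := Subtype.ext a1
        have a2' := Subtype.ext a2
        by_cases hj1 : j + 1 = c.length
        · rw [hj1, hlen] at a1'
          have hi0 := hinj i 0 hi (by omega) a1'
          subst hi0
          have := hinj 1 j (by omega) hj (by simpa using a2')
          omega
        · have hi1 := hinj i (j+1) hi (by omega) a1'
          subst hi1
          by_cases hj2 : j + 1 + 1 = c.length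
          · rw [hj2, hlen] at a2'
            have := hinj 0 j (by omega) hj a2'
            omega
          · have := hinj (j+1+1) j (by omega) hj a2'
            omega
      · exfalso
        exact hne (Subtype.ext (a1.trans a2.symm))
  refine cm3_step S J F h IH ((range s).image (fun k => x (2*k))) ((range c.length).image x)
    ((range c.length).image (fun i => (c.getVert i).1)) ?_ ?_ ?_ ?_ ?_ ?_ ?_
  · intro y hy
    rw [mem_image] at hy
    obtain ⟨i, hi, rfl⟩ := hy
    rw [mem_range] at hi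
    exact (h _ (c.getVert i).2).1 (hx i hi).1
  · intro y hy
    rw [mem_image] at hy
    obtain ⟨k, hk, rfl⟩ := hy
    rw [mem_range] at hk
    exact mem_image.mpr ⟨2*k, mem_range.mpr (by omega), rfl⟩
  · intro y hy
    rw [mem_image] at hy
    obtain ⟨i, hi, rfl⟩ := hy
    exact (c.getVert i).2
  · exact ⟨_, mem_image.mpr ⟨0, mem_range.mpr (by omega), rfl⟩⟩
  · intro y hy
    rw [mem_image] at hy
    obtain ⟨i, hi, rfl⟩ := hy
    rw [mem_range] at hi
    obtain ⟨k, hk⟩ | ⟨k, hk⟩ := Nat.even_or_odd i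
    · have hik : i = 2 * k := by omega
      subst hik
      exact ⟨x (2*k), mem_image.mpr ⟨k, mem_range.mpr (by omega), rfl⟩, (hx (2*k) hi).1⟩
    · subst hk
      exact ⟨x (2*k), mem_image.mpr ⟨k, mem_range.mpr (by omega), rfl⟩, (hx (2*k) (by omega)).2⟩
  · intro f hf hfJ y hy hyf
    rw [mem_image] at hy
    obtain ⟨i, hi, rfl⟩ := hy
    rw [mem_range] at hi
    apply hfJ
    rcases htwo i hi f hf hyf with h1 | h1
    · exact mem_image.mpr ⟨i, mem_range.mpr hi, h1.symm⟩
    · by_cases hi1 : i + 1 = c.length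
      · rw [hi1, hlen] at h1
        exact mem_image.mpr ⟨0, mem_range.mpr (by omega), h1.symm⟩
      · exact mem_image.mpr ⟨i+1, mem_range.mpr (by omega), h1.symm⟩
  · have c1 : ((range s).image (fun k => x (2*k))).card ≤ s := by
      simpa using (Finset.card_image_le (s := range s) (f := fun k => x (2*k)))
    have c2 : ((range c.length).image x).card = c.length := by
      rw [Finset.card_image_of_injOn, card_range]
      intro i hi j hj hij
      exact hxinj i (by simpa using hi) j (by simpa using hj) hij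
    have c3 : ((range c.length).image (fun i => (c.getVert i).1)).card = c.length := by
      rw [Finset.card_image_of_injOn, card_range]
      intro i hi j hj hij
      exact hinj i j (by simpa using hi) (by simpa using hj) (Subtype.ext hij)
    omega

-- TARGET (prove this)
theorem cm3 {V I : Type} (S : Finset V) (J : Finset I) (F : I → Finset V)
    (h : ∀ i ∈ J, F i ⊆ S ∧ (F i).card = 3) :
    ∃ T : Finset V, T ⊆ S ∧ (∀ i ∈ J, ∃ t ∈ T, t ∈ F i) ∧ 4 * T.card ≤ S.card + J.card := by
  obtain ⟨n, hn⟩ : ∃ n, n = J.card := ⟨_, rfl⟩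
  induction n using Nat.strong_induction_on generalizing S J with
  | _ n IH0 =>
    have IH : ∀ (S' : Finset V) (J' : Finset I), J'.card < J.card →
      (∀ i ∈ J', F i ⊆ S' ∧ (F i).card = 3) →
      ∃ T : Finset V, T ⊆ S' ∧ (∀ i ∈ J', ∃ t ∈ T, t ∈ F i) ∧ 4 * T.card ≤ S'.card + J'.card :=
      fun S' J' hlt h' => IH0 J'.card (by omega) S' J' h' rfl
    clear IH0 hn
    rcases J.eq_empty_or_nonempty with hJ | hJ
    · subst hJ
      exact ⟨∅, by simp, by simp, by simp⟩
    by_cases hA : ∃ t ∈ S, 3 ≤ (J.filter (fun i => t ∈ F i)).card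
    · obtain ⟨t, htS, ht⟩ := hA
      refine cm3_step S J F h IH {t} {t} (J.filter (fun i => t ∈ F i)) (by simpa using htS)
        (Finset.Subset.refl _) (Finset.filter_subset _ _) (Finset.card_pos.mp (by omega)) ?_ ?_ ?_
      · intro i hi
        exact ⟨t, by simp, (mem_filter.mp hi).2⟩
      · intro i hi hi0 x hx hxi
        rw [mem_singleton] at hx
        subst hx
        exact hi0 (mem_filter.mpr ⟨hi, hxi⟩)
      · simp only [card_singleton]
        omega
    push Not at hA
    by_cases hB : ∃ y, (J.filter (fun i => y ∈ F i)).card = 1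
    · obtain ⟨y, hy⟩ := hB
      obtain ⟨e, he⟩ := Finset.card_eq_one.mp hy
      have heJ : e ∈ J.filter (fun i => y ∈ F i) := by rw [he]; simp
      have hye : ∀ i ∈ J, y ∈ F i → i = e := by
        intro i hi hyi
        have : i ∈ J.filter (fun i => y ∈ F i) := mem_filter.mpr ⟨hi, hyi⟩
        rw [he] at this
        simpa using this
      rw [mem_filter] at heJ
      by_cases hB2 : ∃ a ∈ F e, a ≠ y ∧ 2 ≤ (J.filter (fun i => a ∈ F i)).card
      · obtain ⟨a, hae, hay, ha2⟩ := hB2
        refine cm3_step S J F h IH {a} {a, y} (J.filter (fun i => a ∈ F i)) ?_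
          (by simp) (Finset.filter_subset _ _) (Finset.card_pos.mp (by omega)) ?_ ?_ ?_
        · intro z hz
          simp only [mem_insert, mem_singleton] at hz
          rcases hz with rfl | rfl
          · exact (h e heJ.1).1 hae
          · exact (h e heJ.1).1 heJ.2
        · intro i hi
          exact ⟨a, by simp, (mem_filter.mp hi).2⟩
        · intro i hi hi0 z hz hzi
          simp only [mem_insert, mem_singleton] at hz
          rcases hz with rfl | rfl
          · exact hi0 (mem_filter.mpr ⟨hi, hzi⟩)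
          · have := hye i hi hzi
            subst this
            exact hi0 (mem_filter.mpr ⟨hi, hae⟩)
        · rw [Finset.card_pair hay, card_singleton]
          omega
      · push Not at hB2
        refine cm3_step S J F h IH {y} (F e) {e} (h e heJ.1).1 (by simpa using heJ.2)
          (by simpa using heJ.1) (by simp) ?_ ?_ ?_
        · intro i hi
          rw [mem_singleton] at hi
          subst hi
          exact ⟨y, by simp, heJ.2⟩
        · intro i hi hi0 z hz hzi
          rw [mem_singleton] at hi0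
          by_cases hzy : z = y
          · subst hzy
            exact hi0 (hye i hi hzi)
          · have h1 := hB2 z hz hzy
            have h2 : ({e, i} : Finset I) ⊆ J.filter (fun i => z ∈ F i) := by
              intro j hj
              simp only [mem_insert, mem_singleton] at hj
              rw [mem_filter]
              rcases hj with rfl | rfl
              · exact ⟨heJ.1, hz⟩
              · exact ⟨hi, hzi⟩
            have h3 := Finset.card_le_card h2
            rw [Finset.card_pair (fun h => hi0 h.symm)] at h3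
            omega
        · rw [(h e heJ.1).2]
          simp
    push Not at hB
    have hdeg : ∀ x, (∃ i ∈ J, x ∈ F i) → (J.filter (fun i => x ∈ F i)).card = 2 := by
      rintro x ⟨i, hi, hxi⟩
      have h1 : 0 < (J.filter (fun i => x ∈ F i)).card :=
        Finset.card_pos.mpr ⟨i, mem_filter.mpr ⟨hi, hxi⟩⟩
      have h2 := hA x ((h i hi).1 hxi)
      have h3 := hB x
      omega
    by_cases hC : ∃ e ∈ J, ∃ f ∈ J, e ≠ f ∧ ∃ x y, x ≠ y ∧ x ∈ F e ∧ x ∈ F f ∧ y ∈ F e ∧ y ∈ F f
    · obtain ⟨e, he, f, hf, hef, x, y, hxy, hxe, hxf, hye, hyf⟩ := hC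
      have hx2 := hdeg x ⟨e, he, hxe⟩
      have hy2 := hdeg y ⟨e, he, hye⟩
      refine cm3_step S J F h IH {x} {x, y} (J.filter (fun i => x ∈ F i)) ?_
          (by simp) (Finset.filter_subset _ _) (Finset.card_pos.mp (by omega)) ?_ ?_ ?_
      · intro z hz
        simp only [mem_insert, mem_singleton] at hz
        rcases hz with rfl | rfl
        · exact (h e he).1 hxe
        · exact (h e he).1 hye
      · intro i hi
        exact ⟨x, by simp, (mem_filter.mp hi).2⟩
      · intro i hi hi0 z hz hzi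
        simp only [mem_insert, mem_singleton] at hz
        rcases hz with rfl | rfl
        · exact hi0 (mem_filter.mpr ⟨hi, hzi⟩)
        · have hie : e ≠ i := by
            rintro rfl
            exact hi0 (mem_filter.mpr ⟨hi, hxe⟩)
          have hif : f ≠ i := by
            rintro rfl
            exact hi0 (mem_filter.mpr ⟨hi, hxf⟩)
          have := cm3_three J F z e f i he hf hi hef hie hif hye hyf hzi
          omega
      · rw [Finset.card_pair hxy, card_singleton]
        omega
    · refine cm3_graph S J F h IH hJ hdeg ?_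
      intro e he f hf hef x y hxe hxf hye hyf
      by_contra hxy
      exact hC ⟨e, he, f, hf, hef, x, y, hxy, hxe, hxf, hye, hyf⟩


end DM
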