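import Mathlib
import Pool.Agent.Helper470.DM.Cm3
set_option autoImplicit false

open Finset
open scoped Classical

namespace DM




-- TARGET (prove this)
theorem dom4 {V : Type} [Fintype V] (E : Finset (Finset V)) (h : ∀ e ∈ E, e.card = 4)
    (hi : ∀ v : V, ∃ e ∈ E, v ∈ e) : ∃ D : Finset V, Dominates E D ∧ 4 * D.card ≤ Fintype.card V := by
  rcases isEmpty_or_nonempty V with hV | hV
  · exact ⟨∅, fun v => (hV.false v).elim, by simp⟩
  obtain ⟨J, hJmem, hJmin⟩ := Finset.exists_min_image
    (E.powerset.filter (fun J : Finset (Finset V) => ∀ v : V, ∃ e ∈ J, v ∈ e)) Finset.card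
    ⟨E, by simp only [Finset.mem_filter, Finset.mem_powerset]; exact ⟨Finset.Subset.refl _, hi⟩⟩
  simp only [Finset.mem_filter, Finset.mem_powerset] at hJmem hJmin
  obtain ⟨hJE, hJc⟩ := hJmem
  have hpriv : ∀ e ∈ J, ∃ v : V, v ∈ e ∧ ∀ e' ∈ J, e' ≠ e → v ∉ e' := by
    intro e he
    by_contra hcon
    push Not at hcon
    have hcov : ∀ v : V, ∃ e' ∈ J.erase e, v ∈ e' := by
      intro v
      obtain ⟨e1, he1, hv1⟩ := hJc v
      by_cases h1 : e1 = e
      · subst h1
        obtain ⟨e2, he2, hne, hv2⟩ := hcon v hv1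
        exact ⟨e2, Finset.mem_erase.2 ⟨hne, he2⟩, hv2⟩
      · exact ⟨e1, Finset.mem_erase.2 ⟨h1, he1⟩, hv1⟩
    have h2 := hJmin (J.erase e) ⟨(Finset.erase_subset _ _).trans hJE, hcov⟩
    have h3 := Finset.card_erase_lt_of_mem he
    omega
  choose! p hp using hpriv
  have hinj : Set.InjOn p (J : Set (Finset V)) := by
    intro a ha b hb hab
    by_contra hne
    have h1 := (hp a ha).1
    have h2 := (hp b hb).2 a ha hne
    rw [← hab] at h2
    exact h2 h1
  obtain ⟨S, hS⟩ : ∃ S : Finset V, S = Finset.univ \ J.image p := ⟨_, rfl⟩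
  have hcardimg : (J.image p).card = J.card := Finset.card_image_of_injOn hinj
  have hScard : S.card + J.card = Fintype.card V := by
    rw [hS, ← hcardimg, ← Finset.card_univ]
    exact Finset.card_sdiff_add_card_eq_card (Finset.subset_univ _)
  obtain ⟨T, hTS, hT, hTc⟩ := cm3 S J (fun e => e.erase (p e)) (by
    intro e he
    refine ⟨?_, ?_⟩
    · intro x hx
      rw [Finset.mem_erase] at hx
      rw [hS, Finset.mem_sdiff]
      refine ⟨Finset.mem_univ _, ?_⟩
      intro hxp
      rw [Finset.mem_image] at hxp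
      obtain ⟨e', he', hxe'⟩ := hxp
      by_cases hee : e = e'
      · subst hee
        exact hx.1 hxe'.symm
      · have := (hp e' he').2 e he hee
        rw [hxe'] at this
        exact this hx.2
    · have h1 := Finset.card_erase_of_mem (hp e he).1
      have h2 := h e (hJE he)
      change (e.erase (p e)).card = 3
      omega)
  refine ⟨T, ?_, by omega⟩
  intro v _
  obtain ⟨e, he, hv⟩ := hJc v
  obtain ⟨t, ht, hte⟩ := hT e he
  exact ⟨t, ht, e, hJE he, Finset.mem_of_mem_erase hte, hv⟩



end DM
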